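import Mathlib

/-! Parseval's identity for the discrete Fourier transform with values in a Hilbert space. -/

set_option autoImplicit false
open Filter Topology MeasureTheory

namespace Pool.Agent.Lib.MP_ec63c8_an.AH

/-- the primitive `n`-th root of unity -/
noncomputable def om (n : ℕ) : ℂ := Complex.exp (2 * Real.pi * Complex.I / n)

lemma om_conj (n : ℕ) : (starRingEnd ℂ) (om n) * om n = 1 := by
  rw [om, ← Complex.exp_conj, ← Complex.exp_add]
  simp [neg_div, map_ofNat]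

lemma om_orth (n : ℕ) (hn : n ≠ 0) (k l : Fin n) :
    ∑ j : Fin n, (starRingEnd ℂ) (om n ^ ((j : ℕ) * (k : ℕ))) * om n ^ ((j : ℕ) * (l : ℕ))
      = if k = l then (n : ℂ) else 0 := by
  have hp : IsPrimitiveRoot (om n) n := Complex.isPrimitiveRoot_exp n hn
  set c := (starRingEnd ℂ) (om n) with hc
  have h1 : c * om n = 1 := om_conj n
  have hcn : c ^ n = 1 := by rw [hc, ← map_pow, hp.pow_eq_one, map_one]
  have e : ∀ j : Fin n, (starRingEnd ℂ) (om n ^ ((j : ℕ) * (k : ℕ))) * om n ^ ((j : ℕ) * (l : ℕ))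
      = (c ^ (k : ℕ) * om n ^ (l : ℕ)) ^ (j : ℕ) := by
    intro j
    rw [map_pow, ← hc, mul_pow, ← pow_mul, ← pow_mul, mul_comm (j : ℕ), mul_comm (j : ℕ)]
  simp only [e]
  rw [Fin.sum_univ_eq_sum_range (fun j => (c ^ (k : ℕ) * om n ^ (l : ℕ)) ^ j) n]
  split_ifs with hkl
  · subst hkl
    rw [← mul_pow, h1]
    simp
  · have hne : c ^ (k : ℕ) * om n ^ (l : ℕ) ≠ 1 := by
      intro h
      apply hkl
      have h2 : om n ^ (k : ℕ) = om n ^ (l : ℕ) := by
        have h3 : (c * om n) ^ (k : ℕ) = 1 := by rw [h1, one_pow]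
        calc om n ^ (k : ℕ) = om n ^ (k : ℕ) * (c ^ (k : ℕ) * om n ^ (l : ℕ)) := by rw [h, mul_one]
          _ = (c * om n) ^ (k : ℕ) * om n ^ (l : ℕ) := by rw [mul_pow]; ring
          _ = om n ^ (l : ℕ) := by rw [h3, one_mul]
      exact Fin.ext (hp.pow_inj k.2 l.2 h2)
    rw [geom_sum_eq hne, mul_pow, ← pow_mul, ← pow_mul, mul_comm (k : ℕ), mul_comm (l : ℕ),
      pow_mul, pow_mul, hcn, hp.pow_eq_one]
    simp

lemma norm_om_pow (n m : ℕ) : ‖om n ^ m‖ = 1 := by
  have h := congrArg norm (om_conj n)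
  rw [norm_mul, RCLike.norm_conj, norm_one] at h
  have h1 : ‖om n‖ = 1 := by nlinarith [norm_nonneg (om n)]
  rw [norm_pow, h1, one_pow]

lemma parseval {H : Type} [NormedAddCommGroup H] [InnerProductSpace ℂ H] (n : ℕ) (hn : n ≠ 0)
    (u : Fin n → H) :
    ∑ j : Fin n, ‖∑ k : Fin n, om n ^ ((j : ℕ) * (k : ℕ)) • u k‖ ^ 2
      = n * ∑ k : Fin n, ‖u k‖ ^ 2 := by
  have key : ∑ j : Fin n, inner ℂ (∑ k : Fin n, om n ^ ((j : ℕ) * (k : ℕ)) • u k)
      (∑ k : Fin n, om n ^ ((j : ℕ) * (k : ℕ)) • u k) = n * ∑ k : Fin n, inner ℂ (u k) (u k) := by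
    simp only [sum_inner, inner_sum, inner_smul_left, inner_smul_right]
    rw [Finset.sum_comm, Finset.mul_sum]
    refine Finset.sum_congr rfl fun l _ => ?_
    simp only [Finset.mul_sum]
    rw [Finset.sum_comm]
    have : ∀ k : Fin n, ∑ j : Fin n, om n ^ ((j : ℕ) * (l : ℕ)) *
        ((starRingEnd ℂ) (om n ^ ((j : ℕ) * (k : ℕ))) * inner ℂ (u k) (u l))
        = (if k = l then (n : ℂ) else 0) * inner ℂ (u k) (u l) := by
      intro k
      rw [← om_orth n hn k l, Finset.sum_mul]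
      exact Finset.sum_congr rfl fun j _ => by ring
    simp only [this]
    simp
  simp only [inner_self_eq_norm_sq_to_K] at key
  have h2 := congrArg Complex.re key
  simp only [Complex.re_sum, Complex.mul_re, Complex.natCast_re, Complex.natCast_im, zero_mul,
    sub_zero, Complex.coe_algebraMap, ← Complex.ofReal_pow, Complex.ofReal_re] at h2
  exact h2

end Pool.Agent.Lib.MP_ec63c8_an.AH
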