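import Mathlib

/-! The class of (iterated) twisted asymptotically Hilbertian spaces. -/

set_option autoImplicit false

namespace Pool.Agent.Lib.MP_ec63c8_an.AH

/-- On every subspace `E ≤ S` of dimension at most `n` the quotient map modulo `S₀` factors
through a Euclidean space with constant `K`. -/
def Euc {W : Type} [NormedAddCommGroup W] [NormedSpace ℂ W] (K : ℝ) (n : ℕ)
    (S S₀ : Submodule ℂ W) : Prop :=
  ∀ E : Submodule ℂ W, E ≤ S → FiniteDimensional ℂ E → Module.finrank ℂ E ≤ n →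
    ∃ (m : ℕ) (e : E →ₗ[ℂ] EuclideanSpace ℂ (Fin m)),
      ∀ v : E, Metric.infDist (v : W) (S₀ : Set W) ≤ ‖e v‖ ∧ ‖e v‖ ≤ K * ‖v‖

/-- The least family of subspaces of `W` that contains `W` and contains `S₀` as soon as, for
some `K` and all `n`, it contains some `S n` with `Euc K n (S n) S₀`. -/
inductive Tw {W : Type} [NormedAddCommGroup W] [NormedSpace ℂ W] : Submodule ℂ W → Prop
  | top : Tw ⊤
  | step (S₀ : Submodule ℂ W) (K : ℝ) (S : ℕ → Submodule ℂ W) :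
      (∀ n, Tw (S n)) → (∀ n, Euc K n (S n) S₀) → Tw S₀

/-! ### Which spaces the class contains -/

variable {W : Type} [NormedAddCommGroup W] [NormedSpace ℂ W]

lemma infDist_eq_norm_mk (S : Submodule ℂ W) (v : W) :
    Metric.infDist v (S : Set W) = ‖S.mkQ v‖ :=
  (QuotientAddGroup.norm_mk (S := S.toAddSubgroup) v).symm

/-- A subspace with Hilbertian quotient is in the family (for `S₀ = 0`: Hilbert spaces). -/
theorem Tw.of_hilbert_quotient (S₀ : Submodule ℂ W) {H : Type} [NormedAddCommGroup H]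
    [InnerProductSpace ℂ H] (e : (W ⧸ S₀) ≃L[ℂ] H) : Tw S₀ := by
  refine Tw.step S₀ (‖(e.symm : H →L[ℂ] W ⧸ S₀)‖ * ‖(e : (W ⧸ S₀) →L[ℂ] H)‖) (fun _ => ⊤)
    (fun _ => Tw.top) fun n E _ hE _ => ?_
  let f : E →ₗ[ℂ] H := (e : (W ⧸ S₀) →ₗ[ℂ] H) ∘ₗ S₀.mkQ ∘ₗ E.subtype
  refine ⟨_, ((‖(e.symm : H →L[ℂ] W ⧸ S₀)‖ : ℝ) : ℂ) •
    ((stdOrthonormalBasis ℂ (LinearMap.range f)).repr.toLinearEquiv.toLinearMap ∘ₗ
      f.rangeRestrict), fun v => ?_⟩
  have h0 : ‖(((‖(e.symm : H →L[ℂ] W ⧸ S₀)‖ : ℝ) : ℂ) •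
      ((stdOrthonormalBasis ℂ (LinearMap.range f)).repr.toLinearEquiv.toLinearMap ∘ₗ
        f.rangeRestrict)) v‖ = ‖(e.symm : H →L[ℂ] W ⧸ S₀)‖ * ‖e (S₀.mkQ v)‖ := by
    rw [LinearMap.smul_apply, norm_smul, Complex.norm_real, Real.norm_eq_abs,
      abs_of_nonneg (ContinuousLinearMap.opNorm_nonneg _)]
    congr 1
    exact (stdOrthonormalBasis ℂ (LinearMap.range f)).repr.norm_map _
  rw [h0, infDist_eq_norm_mk, mul_assoc]
  refine ⟨?_, mul_le_mul_of_nonneg_left ?_ (ContinuousLinearMap.opNorm_nonneg _)⟩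
  · simpa using (e.symm : H →L[ℂ] W ⧸ S₀).le_opNorm (e (S₀.mkQ v))
  · exact ((e : (W ⧸ S₀) →L[ℂ] H).le_opNorm _).trans
      (mul_le_mul_of_nonneg_left (Submodule.Quotient.norm_mk_le S₀ _)
        (ContinuousLinearMap.opNorm_nonneg _))

/-- Closed subspaces of finite codimension are in the family. -/
theorem Tw.of_finite_codim (S₀ : Submodule ℂ W) [IsClosed (S₀ : Set W)]
    [FiniteDimensional ℂ (W ⧸ S₀)] : Tw S₀ :=
  Tw.of_hilbert_quotient S₀ (H := EuclideanSpace ℂ (Fin (Module.finrank ℂ (W ⧸ S₀))))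
    (ContinuousLinearEquiv.ofFinrankEq (by simp))

/-- Asymptotically Hilbertian spaces (Pisier) are in the class. -/
theorem Tw.of_asymptotically_hilbertian (K : ℝ)
    (h : ∀ n : ℕ, ∃ Z : Submodule ℂ W, IsClosed (Z : Set W) ∧ FiniteDimensional ℂ (W ⧸ Z) ∧
      ∀ E : Submodule ℂ W, E ≤ Z → FiniteDimensional ℂ E → Module.finrank ℂ E ≤ n →
        ∃ e : E ≃ₗ[ℂ] EuclideanSpace ℂ (Fin (Module.finrank ℂ E)),
          ∀ v : E, ‖v‖ ≤ ‖e v‖ ∧ ‖e v‖ ≤ K * ‖v‖) :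
    Tw (⊥ : Submodule ℂ W) := by
  choose Z h1 h2 h3 using h
  refine Tw.step ⊥ K Z (fun n => ?_) fun n E hE hf hn => ?_
  · have := h1 n
    have := h2 n
    exact Tw.of_finite_codim (Z n)
  · obtain ⟨e, he⟩ := h3 n E hE hf hn
    refine ⟨_, e.toLinearMap, fun v => ⟨le_trans ?_ (he v).1, (he v).2⟩⟩
    exact (infDist_eq_norm_mk _ _).trans_le (Submodule.Quotient.norm_mk_le _ _)

theorem Tw.comap_mkQ (Y : Submodule ℂ W) [IsClosed (Y : Set W)] {S : Submodule ℂ (W ⧸ Y)}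
    (h : Tw S) : Tw (S.comap Y.mkQ) := by
  induction h with
  | top => exact Tw.top
  | step S₀ K S _ hE ih =>
    refine Tw.step _ (max K 0) (fun n => (S n).comap Y.mkQ) ih fun n E hle hf hn => ?_
    obtain ⟨m, e, he⟩ := hE n (E.map Y.mkQ) (Submodule.map_le_iff_le_comap.mpr hle) inferInstance
      ((Submodule.finrank_map_le _ _).trans hn)
    refine ⟨m, e ∘ₗ Y.mkQ.submoduleMap E, fun v => ?_⟩
    obtain ⟨h1, h2⟩ := he (Y.mkQ.submoduleMap E v)
    refine ⟨le_trans ?_ h1, h2.trans (mul_le_mul (le_max_left _ _)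
      (Submodule.Quotient.norm_mk_le Y _) (norm_nonneg _) (le_max_right _ _))⟩
    refine le_of_forall_pos_lt_add fun ε hε => ?_
    rw [infDist_eq_norm_mk S₀]
    obtain ⟨w, hw, hw'⟩ := Submodule.Quotient.norm_mk_lt (S₀.mkQ (Y.mkQ v)) (half_pos hε)
    obtain ⟨u, rfl, hu⟩ := Submodule.Quotient.norm_mk_lt w (half_pos hε)
    have hmem : (v : W) - u ∈ S₀.comap Y.mkQ := (Submodule.Quotient.eq S₀).mp hw.symm
    have h3 := Metric.infDist_le_dist_of_mem (x := (v : W)) hmem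
    rw [dist_eq_norm, sub_sub_cancel] at h3
    have h4 : ‖S₀.mkQ (Y.mkQ.submoduleMap E v : W ⧸ Y)‖ = ‖S₀.mkQ (Y.mkQ v)‖ := rfl
    linarith

theorem Tw.map_subtype {Y : Submodule ℂ W} (hY : Tw Y) {S : Submodule ℂ Y} (h : Tw S) :
    Tw (S.map Y.subtype) := by
  induction h with
  | top => simpa using hY
  | step S₀ K S _ hE ih =>
    refine Tw.step _ K (fun n => (S n).map Y.subtype) ih fun n E hle hf hn => ?_
    have hEY : E ≤ Y := hle.trans (Submodule.map_subtype_le _ _)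
    let i := Submodule.comapSubtypeEquivOfLe hEY
    obtain ⟨m, e, he⟩ := hE n (E.comap Y.subtype)
      ((Submodule.comap_mono hle).trans (Submodule.comap_map_eq_of_injective
        Y.injective_subtype _).le) (i.symm.finiteDimensional) (i.finrank_eq.le.trans hn)
    refine ⟨m, e ∘ₗ i.symm.toLinearMap, fun v => ?_⟩
    obtain ⟨h1, h2⟩ := he (i.symm v)
    refine ⟨le_trans (le_of_eq ?_) h1, h2⟩
    exact Metric.infDist_image (Φ := (Subtype.val : Y → W)) (x := (i.symm v : Y))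
      (t := (S₀ : Set Y)) isometry_subtype_coe

/-- The class is closed under twisted sums: if `Y` and `W ⧸ Y` are in it, so is `W`. -/
theorem Tw.extension (Y : Submodule ℂ W) [IsClosed (Y : Set W)] (h1 : Tw (⊥ : Submodule ℂ Y))
    (h2 : Tw (⊥ : Submodule ℂ (W ⧸ Y))) : Tw (⊥ : Submodule ℂ W) := by
  have h3 : Tw Y := by simpa using Tw.comap_mkQ Y h2
  simpa using h3.map_subtype h1

end Pool.Agent.Lib.MP_ec63c8_an.AH
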