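import Mathlib

/-! A compactly supported window whose Fourier transform is an approximate identity. -/

set_option autoImplicit false
open Filter Topology MeasureTheory FourierTransform

namespace Pool.Agent.Lib.MP_ec63c8_an.AH

lemma base_kernel : ∃ w φ : ℝ → ℂ, Continuous w ∧ (∀ s, ‖w s‖ ≤ 1) ∧ (∀ s, 1 ≤ |s| → w s = 0) ∧
    Integrable φ ∧ (∫ ξ, φ ξ) = 1 ∧
    ∀ ξ, φ ξ = ∫ s : ℝ, Complex.exp (↑(-2 * Real.pi * s * ξ) * Complex.I) • w s := by
  let b : ContDiffBump (0 : ℝ) := ⟨1 / 2, 1, by norm_num, by norm_num⟩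
  let w : ℝ → ℂ := fun s => (b s : ℂ)
  have hc : HasCompactSupport w := b.hasCompactSupport.comp_left (g := fun r : ℝ => (r : ℂ)) (by simp)
  have hs : ContDiff ℝ (⊤ : ℕ∞) w := Complex.ofRealCLM.contDiff.comp b.contDiff
  have hi : Integrable w := hs.continuous.integrable_of_hasCompactSupport hc
  have hF : Integrable (𝓕 w) := (𝓕 (hc.toSchwartzMap hs)).integrable
  refine ⟨w, 𝓕 w, hs.continuous, fun s => ?_, fun s h => ?_, hF, ?_,
    fun ξ => Real.fourier_real_eq_integral_exp_smul w ξ⟩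
  · simp only [w, Complex.norm_real, Real.norm_eq_abs, abs_of_nonneg b.nonneg]
    exact b.le_one
  · have : b s = 0 := b.zero_of_le_dist (by simpa [b] using h)
    simp [w, this]
  · have h := hi.fourierInv_fourier_eq hF (v := 0) hs.continuous.continuousAt
    rw [Real.fourierInv_eq'] at h
    have h1 : b 0 = 1 := b.one_of_mem_closedBall (by simp [b])
    simpa [w, h1] using h

lemma kernel {D : ℝ → ℝ} (hD : Continuous D) (hD0 : D 0 = 0) {C : ℝ} (hC : ∀ v, |D v| ≤ C)
    {ε : ℝ} (hε : 0 < ε) :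
    ∃ S : ℝ, 0 < S ∧ ∃ w ψ : ℝ → ℂ, Continuous w ∧ (∀ s, ‖w s‖ ≤ 1) ∧
      (∀ s, S / 2 ≤ |s| → w s = 0) ∧ Integrable ψ ∧ (∫ v, ψ v) = 2 * Real.pi ∧
      (∀ v : ℝ, ψ v = ∫ s : ℝ, Complex.exp (↑(s * v) * Complex.I) * w s) ∧
      ∫ v, ‖ψ v‖ * D v ≤ ε := by
  obtain ⟨w, φ, hw, hw1, hw0, hφ, hφ1, hφw⟩ := base_kernel
  have hπ : 0 < Real.pi := Real.pi_pos
  have hlim : Tendsto (fun l : ℝ => ∫ ξ, ‖φ ξ‖ * D ((-(2 * Real.pi) * ξ) * l⁻¹)) atTop
      (𝓝 (∫ ξ, ‖φ ξ‖ * D 0)) := by
    refine tendsto_integral_filter_of_dominated_convergence (fun ξ => ‖φ ξ‖ * C) ?_ ?_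
      (hφ.norm.mul_const C) ?_
    · exact Eventually.of_forall fun l => hφ.norm.aestronglyMeasurable.mul
        (hD.comp (by fun_prop)).aestronglyMeasurable
    · refine Eventually.of_forall fun l => Eventually.of_forall fun ξ => ?_
      rw [norm_mul, norm_norm]
      exact mul_le_mul_of_nonneg_left (hC _) (norm_nonneg _)
    · refine Eventually.of_forall fun ξ => Tendsto.const_mul _ ?_
      refine hD.continuousAt.tendsto.comp ?_
      simpa using tendsto_inv_atTop_zero.const_mul (-(2 * Real.pi) * ξ)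
  simp only [hD0, mul_zero, integral_zero] at hlim
  obtain ⟨l, hl1, hl⟩ := ((hlim.eventually (gt_mem_nhds (show (0 : ℝ) < ε / (2 * Real.pi) by
    positivity))).and (eventually_gt_atTop 0)).exists
  set c : ℝ := -(l / (2 * Real.pi)) with hc
  have hc0 : c ≠ 0 := by rw [hc]; exact neg_ne_zero.mpr (by positivity)
  have hcabs : |c⁻¹| = 2 * Real.pi / l := by
    rw [hc, inv_neg, abs_neg, abs_of_pos (by positivity), inv_div]
  refine ⟨2 * l, by positivity, fun s => w (s / l), fun v => (l : ℂ) * φ (c * v), by fun_prop,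
    fun s => hw1 _, fun s h => hw0 _ ?_, (hφ.comp_mul_left' hc0).const_mul _, ?_, fun v => ?_, ?_⟩
  · rw [abs_div, abs_of_pos hl, le_div_iff₀ hl]
    linarith
  · rw [integral_const_mul, Measure.integral_comp_mul_left, hφ1, hcabs]
    have : (l : ℂ) ≠ 0 := by exact_mod_cast hl.ne'
    simp only [Complex.real_smul, mul_one]
    push_cast
    field_simp
  · have h := Measure.integral_comp_div
      (fun r : ℝ => Complex.exp (↑(-2 * Real.pi * r * (c * v)) * Complex.I) • w r) l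
    rw [abs_of_pos hl, Complex.real_smul] at h
    beta_reduce
    rw [hφw, ← h]
    refine integral_congr_ae (Eventually.of_forall fun s => ?_)
    have : -2 * Real.pi * (s / l) * (c * v) = s * v := by
      rw [hc]; field_simp
    simp only [this, smul_eq_mul]
  · have h := Measure.integral_comp_mul_left
      (fun ξ : ℝ => ‖φ ξ‖ * D ((-(2 * Real.pi) * ξ) * l⁻¹)) c
    have e : ∀ v : ℝ, ‖(l : ℂ) * φ (c * v)‖ * D v
        = l * (‖φ (c * v)‖ * D ((-(2 * Real.pi) * (c * v)) * l⁻¹)) := by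
      intro v
      have : -(2 * Real.pi) * (c * v) * l⁻¹ = v := by rw [hc]; field_simp
      rw [this, norm_mul, Complex.norm_real, Real.norm_eq_abs, abs_of_pos hl, mul_assoc]
    simp only [e]
    rw [integral_const_mul, h, hcabs, smul_eq_mul, ← mul_assoc, mul_div_cancel₀ _ hl.ne']
    rw [lt_div_iff₀ (by positivity)] at hl1
    linarith

end Pool.Agent.Lib.MP_ec63c8_an.AH
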