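import Mathlib

/-! Laplace transforms of bounded continuous functions and smoothed inversion. -/

set_option autoImplicit false
open Filter Topology MeasureTheory

namespace Pool.Agent.Lib.MP_ec63c8_an.AH

variable {X : Type} [NormedAddCommGroup X] [NormedSpace ℂ X] [CompleteSpace X]

/-- the Laplace transform at `a + i s` -/
noncomputable def Fl (u : ℝ → X) (a s : ℝ) : X :=
  ∫ t in Set.Ioi (0 : ℝ), Complex.exp (-(((a : ℂ) + (s : ℂ) * Complex.I) * (t : ℂ))) • u t

lemma norm_lexp (a s t : ℝ) :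
    ‖Complex.exp (-(((a : ℂ) + (s : ℂ) * Complex.I) * (t : ℂ)))‖ = Real.exp (-a * t) := by
  rw [Complex.norm_exp]
  simp

omit [CompleteSpace X] in
lemma Fl_bound {u : ℝ → X} {C : ℝ} (hC : ∀ t, ‖u t‖ ≤ C) (a s t : ℝ) :
    ‖Complex.exp (-(((a : ℂ) + (s : ℂ) * Complex.I) * (t : ℂ))) • u t‖ ≤ Real.exp (-a * t) * C := by
  rw [norm_smul, norm_lexp]
  exact mul_le_mul_of_nonneg_left (hC t) (Real.exp_pos _).le

omit [CompleteSpace X] in
lemma Fl_int {u : ℝ → X} (hu : Continuous u) {C : ℝ} (hC : ∀ t, ‖u t‖ ≤ C) {a : ℝ} (ha : 0 < a)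
    (s : ℝ) : IntegrableOn (fun t : ℝ =>
      Complex.exp (-(((a : ℂ) + (s : ℂ) * Complex.I) * (t : ℂ))) • u t) (Set.Ioi 0) :=
  Integrable.mono' ((exp_neg_integrableOn_Ioi 0 ha).mul_const C)
    (Continuous.aestronglyMeasurable (by fun_prop))
    (Eventually.of_forall fun t => Fl_bound hC a s t)

omit [CompleteSpace X] in
lemma Fl_cont {u : ℝ → X} (hu : Continuous u) {C : ℝ} (hC : ∀ t, ‖u t‖ ≤ C) {a : ℝ} (ha : 0 < a) :
    Continuous (Fl u a) :=
  continuous_of_dominated (bound := fun t => Real.exp (-a * t) * C)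
    (fun s => (Fl_int hu hC ha s).aestronglyMeasurable)
    (fun s => Eventually.of_forall fun t => Fl_bound hC a s t)
    ((exp_neg_integrableOn_Ioi 0 ha).mul_const C)
    (Eventually.of_forall fun t => by fun_prop)

lemma Fl_mem {u : ℝ → X} (hu : Continuous u) {C : ℝ} (hC : ∀ t, ‖u t‖ ≤ C) {a : ℝ} (ha : 0 < a)
    (N : Submodule ℂ X) (hN : IsClosed (N : Set X)) (hm : ∀ t, u t ∈ N) (s : ℝ) :
    Fl u a s ∈ N := by
  have h := N.mkQL.integral_comp_comm (Fl_int hu hC ha s)
  have h0 : ∀ t : ℝ,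
      N.mkQL (Complex.exp (-(((a : ℂ) + (s : ℂ) * Complex.I) * (t : ℂ))) • u t) = 0 :=
    fun t => (Submodule.Quotient.mk_eq_zero N).mpr (N.smul_mem _ (hm t))
  simp only [h0, integral_zero] at h
  exact (Submodule.Quotient.mk_eq_zero N).mp h.symm

lemma Fl_fubini {u : ℝ → X} (hu : Continuous u) {C : ℝ} (hC : ∀ t, ‖u t‖ ≤ C) {a : ℝ}
    (ha : 0 < a) {w ψ : ℝ → ℂ} (hw : Continuous w) (hwi : Integrable w)
    (hψ : ∀ v : ℝ, ψ v = ∫ s : ℝ, Complex.exp (↑(s * v) * Complex.I) * w s) (t : ℝ) :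
    ∫ s : ℝ, Complex.exp (↑(s * t) * Complex.I) • (w s • Fl u a s)
      = ∫ r in Set.Ioi (0 : ℝ), ψ (t - r) • (((Real.exp (-a * r) : ℝ) : ℂ) • u r) := by
  have hint : Integrable (Function.uncurry fun s r : ℝ => Complex.exp (↑(s * t) * Complex.I) •
      (w s • (Complex.exp (-(((a : ℂ) + (s : ℂ) * Complex.I) * (r : ℂ))) • u r)))
      (volume.prod (volume.restrict (Set.Ioi (0 : ℝ)))) := by
    refine Integrable.mono' (hwi.norm.mul_prod ((exp_neg_integrableOn_Ioi 0 ha).mul_const C))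
      (Continuous.aestronglyMeasurable (by unfold Function.uncurry; fun_prop))
      (Eventually.of_forall fun p => ?_)
    simp only [Function.uncurry]
    rw [norm_smul, Complex.norm_exp_ofReal_mul_I, one_mul, norm_smul]
    exact mul_le_mul_of_nonneg_left (Fl_bound hC a p.1 p.2) (norm_nonneg _)
  have h := integral_integral_swap hint
  simp only [integral_smul] at h
  refine h.trans (integral_congr_ae (Eventually.of_forall fun r => ?_))
  simp only [smul_smul]
  rw [integral_smul_const, hψ, ← integral_mul_const]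
  congr 2
  funext s
  rw [mul_comm (w s), ← mul_assoc, mul_right_comm _ (w s), Complex.ofReal_exp, ← Complex.exp_add,
    ← Complex.exp_add]
  congr 2
  push_cast
  ring

lemma approx {ψ : ℝ → ℂ} (hψ : Integrable ψ) {g : ℝ → X} (hg : StronglyMeasurable g) {C : ℝ}
    (hC : ∀ r, ‖g r‖ ≤ C) {D : ℝ → ℝ} (hD : Continuous D) {C' : ℝ} (hD' : ∀ v, |D v| ≤ C')
    (t : ℝ) (h : ∀ v, ‖g (t - v) - g t‖ ≤ D v) :
    ‖(∫ r, ψ (t - r) • g r) - (∫ v, ψ v) • g t‖ ≤ ∫ v, ‖ψ v‖ * D v := by
  have e : ∫ r, ψ (t - r) • g r = ∫ v, ψ v • g (t - v) := by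
    rw [← integral_sub_left_eq_self (fun v => ψ v • g (t - v)) volume t]
    simp
  have i1 : Integrable (fun v => ψ v • g (t - v)) := by
    refine Integrable.mono' (hψ.norm.mul_const C) (hψ.aestronglyMeasurable.smul
      (hg.comp_measurable (by fun_prop)).aestronglyMeasurable) (Eventually.of_forall fun v => ?_)
    rw [norm_smul]
    exact mul_le_mul_of_nonneg_left (hC _) (norm_nonneg _)
  rw [e, ← integral_smul_const, ← integral_sub i1 (hψ.smul_const _)]
  refine norm_integral_le_of_norm_le ?_ (Eventually.of_forall fun v => ?_)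
  · refine Integrable.mono' (hψ.norm.mul_const C')
      (hψ.norm.aestronglyMeasurable.mul hD.aestronglyMeasurable) (Eventually.of_forall fun v => ?_)
    rw [norm_mul, norm_norm]
    exact mul_le_mul_of_nonneg_left (hD' _) (norm_nonneg _)
  · rw [← smul_sub, norm_smul]
    exact mul_le_mul_of_nonneg_left (h v) (norm_nonneg _)

end Pool.Agent.Lib.MP_ec63c8_an.AH
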