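import Pool.Agent.Lib.MP_ec63c8_an.AH.Win
import Pool.Agent.Lib.MP_ec63c8_an.AH.Lap
import Pool.Agent.Lib.MP_ec63c8_an.AH.Ker

/-! The lower bound for `a ∫ ‖F(a+is)‖² ds`. -/

set_option autoImplicit false
open Filter Topology MeasureTheory

namespace Pool.Agent.Lib.MP_ec63c8_an.AH

variable {X : Type} [NormedAddCommGroup X] [NormedSpace ℂ X] [CompleteSpace X]

lemma exp_diff {a r t : ℝ} (ha : 0 < a) (ha1 : a ≤ 1) (hr : 0 ≤ r) (ht : 0 ≤ t) :
    |Real.exp (-a * r) - Real.exp (-a * t)| ≤ min 1 |t - r| := by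
  have aux : ∀ r t : ℝ, 0 ≤ r → r ≤ t →
      |Real.exp (-a * r) - Real.exp (-a * t)| ≤ min 1 |t - r| := by
    intro r t hr hrt
    have h1 : Real.exp (-a * r) ≤ 1 := Real.exp_le_one_iff.mpr (by nlinarith)
    have h2 : Real.exp (-a * t) ≤ Real.exp (-a * r) := Real.exp_le_exp.mpr (by nlinarith)
    have h3 := Real.exp_pos (-a * t)
    have h4 := Real.exp_pos (-a * r)
    have h5 : Real.exp (-a * t) = Real.exp (-a * r) * Real.exp (-a * (t - r)) := by
      rw [← Real.exp_add]; congr 1; ring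
    have h6 := Real.add_one_le_exp (-a * (t - r))
    rw [abs_of_nonneg (by linarith), abs_of_nonneg (by linarith : 0 ≤ t - r)]
    refine le_min (by linarith) ?_
    have h7 : 0 ≤ a * (t - r) := by nlinarith
    have h8 : a * (t - r) ≤ t - r := by nlinarith
    nlinarith
  rcases le_total r t with h | h
  · exact aux r t hr h
  · rw [abs_sub_comm, abs_sub_comm t]
    exact aux t r ht h

omit [CompleteSpace X] in
lemma damp_close {u : ℝ → X} {C : ℝ} (hC : ∀ t, ‖u t‖ ≤ C) {ρ : ℝ → ℝ} (hρ0 : ∀ v, 0 ≤ ρ v)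
    (hρ : ∀ r t, 0 ≤ r → 0 ≤ t → ‖u r - u t‖ ≤ ρ (t - r)) {a : ℝ} (ha : 0 < a) (ha1 : a ≤ 1)
    {t : ℝ} (ht : 1 ≤ t) (v : ℝ) :
    ‖(Set.Ioi (0 : ℝ)).indicator (fun r => ((Real.exp (-a * r) : ℝ) : ℂ) • u r) (t - v)
      - ((Real.exp (-a * t) : ℝ) : ℂ) • u t‖ ≤ C * min 1 |v| + ρ v := by
  have hC0 : 0 ≤ C := (norm_nonneg _).trans (hC 0)
  have h1 : Real.exp (-a * t) ≤ 1 := Real.exp_le_one_iff.mpr (by nlinarith)
  have h2 := Real.exp_pos (-a * t)
  by_cases hv : t - v ∈ Set.Ioi (0 : ℝ)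
  · rw [Set.indicator_of_mem hv]
    have e : ((Real.exp (-a * (t - v)) : ℝ) : ℂ) • u (t - v) - ((Real.exp (-a * t) : ℝ) : ℂ) • u t
        = ((Real.exp (-a * (t - v)) - Real.exp (-a * t) : ℝ) : ℂ) • u (t - v)
          + ((Real.exp (-a * t) : ℝ) : ℂ) • (u (t - v) - u t) := by
      rw [Complex.ofReal_sub, sub_smul, smul_sub]; abel
    have h3 := exp_diff ha ha1 (le_of_lt hv) (by linarith : 0 ≤ t)
    have h4 := hρ (t - v) t (le_of_lt hv) (by linarith)
    rw [sub_sub_cancel] at h3 h4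
    rw [e]
    refine (norm_add_le _ _).trans (add_le_add ?_ ?_)
    · rw [norm_smul, Complex.norm_real, Real.norm_eq_abs, mul_comm]
      exact mul_le_mul (hC _) h3 (abs_nonneg _) hC0
    · rw [norm_smul, Complex.norm_real, Real.norm_eq_abs, abs_of_pos h2]
      nlinarith [norm_nonneg (u (t - v) - u t)]
  · rw [Set.indicator_of_notMem hv, zero_sub, norm_neg, norm_smul, Complex.norm_real,
      Real.norm_eq_abs, abs_of_pos h2]
    have h3 : 1 ≤ |v| := by
      simp only [Set.mem_Ioi, not_lt] at hv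
      exact le_abs.mpr (Or.inl (by linarith))
    rw [min_eq_left h3]
    nlinarith [hC t, norm_nonneg (u t), hρ0 v]

omit [CompleteSpace X] in
lemma Q_add_le {Q : X → ℝ} (hconv : ConvexOn ℝ Set.univ Q)
    (hsmul : ∀ (c : ℂ) y, Q (c • y) = ‖c‖ ^ 2 * Q y) (y z : X) :
    Q (y + z) ≤ 2 * Q y + 2 * Q z := by
  have h := hconv.2 (Set.mem_univ y) (Set.mem_univ z) (show (0 : ℝ) ≤ 1 / 2 by norm_num)
    (show (0 : ℝ) ≤ 1 / 2 by norm_num) (by norm_num)
  rw [← smul_add, ← Complex.coe_smul, hsmul, Complex.norm_real] at h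
  norm_num at h
  linarith

lemma key {Q : X → ℝ} (hconv : ConvexOn ℝ Set.univ Q) (hcont : Continuous Q)
    (hsmul : ∀ (c : ℂ) y, Q (c • y) = ‖c‖ ^ 2 * Q y) {B : ℝ} (hB : 0 ≤ B)
    (hQB : ∀ y, Q y ≤ B * ‖y‖ ^ 2)
    {u : ℝ → X} (hu : Continuous u) {C : ℝ} (hC : ∀ t, ‖u t‖ ≤ C)
    {ρ : ℝ → ℝ} (hρc : Continuous ρ) (hρz : ρ 0 = 0) (hρ0 : ∀ v, 0 ≤ ρ v) {C' : ℝ}
    (hρb : ∀ v, ρ v ≤ C') (hρ : ∀ r t, 0 ≤ r → 0 ≤ t → ‖u r - u t‖ ≤ ρ (t - r))
    {q : ℝ} (hq : 0 < q) (hQu : ∀ t, 0 ≤ t → Q (u t) = q)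
    (N : ℕ → Submodule ℂ X) (hNc : ∀ n, IsClosed (N n : Set X)) (hNu : ∀ n t, u t ∈ N n)
    {K : ℝ} (hK : 0 < K) (hpar : ∀ n : ℕ, n ≠ 0 → ∀ y : Fin n → X, (∀ k, y k ∈ N n) →
      ∑ j : Fin n, Q (∑ k : Fin n, om n ^ ((j : ℕ) * (k : ℕ)) • y k)
        ≤ K * n * ∑ k : Fin n, ‖y k‖ ^ 2) :
    ∃ c : ℝ, 0 < c ∧ ∀ a : ℝ, 0 < a → a ≤ 1 →
      ENNReal.ofReal c ≤ ENNReal.ofReal a * ∫⁻ s : ℝ, ((‖Fl u a s‖₊ : ENNReal)) ^ 2 := by
  have hπ := Real.pi_pos
  have hC0 : 0 ≤ C := (norm_nonneg _).trans (hC 0)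
  set m : ℝ := (2 * Real.pi * Real.exp (-2)) ^ 2 * q with hm
  have hm0 : 0 < m := by positivity
  obtain ⟨ε, hε, hεm⟩ : ∃ ε : ℝ, 0 < ε ∧ B * ε ^ 2 ≤ m / 4 := by
    refine ⟨min 1 (m / (4 * (B + 1))), by positivity, ?_⟩
    have h1 := min_le_left 1 (m / (4 * (B + 1)))
    have h2 := min_le_right 1 (m / (4 * (B + 1)))
    have h3 : 0 < min 1 (m / (4 * (B + 1))) := by positivity
    rw [le_div_iff₀ (by positivity)] at h2
    nlinarith [mul_nonneg hB h3.le]
  have hDc : Continuous fun v : ℝ => C * min 1 |v| + ρ v := by fun_prop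
  have hDb : ∀ v : ℝ, abs (C * min 1 |v| + ρ v) ≤ C + C' := fun v => by
    have h1 : 0 ≤ min 1 |v| := by positivity
    have h2 := min_le_left 1 |v|
    rw [abs_of_nonneg (by have := hρ0 v; positivity)]
    nlinarith [hρb v]
  obtain ⟨S, hS, w, ψ, hw, hw1, hw0, hψ, hψ1, hψw, hψD⟩ :=
    kernel hDc (by simp [hρz]) hDb hε
  have hsupp : ∀ s, s ∉ Set.Ioc (-(S / 2)) (-(S / 2) + S) → w s = 0 := by
    intro s hs
    apply hw0
    rw [Set.mem_Ioc, not_and_or, not_lt, not_le] at hs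
    rcases hs with h | h
    · exact le_abs.mpr (Or.inr (by linarith))
    · exact le_abs.mpr (Or.inl (by linarith))
  have hcs : HasCompactSupport w := HasCompactSupport.intro
    (isCompact_Icc (a := -(S / 2)) (b := -(S / 2) + S))
    fun s hs => hsupp s fun h => hs (Set.Ioc_subset_Icc_self h)
  have hwi : Integrable w := hw.integrable_of_hasCompactSupport hcs
  refine ⟨m / (8 * Real.pi * K), by positivity, fun a ha ha1 => ?_⟩
  set n : ℕ := ⌈S / (2 * Real.pi * a)⌉₊ with hn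
  have hn0 : n ≠ 0 := (Nat.ceil_pos.mpr (by positivity)).ne'
  have hF := Fl_cont hu hC ha
  have hh : Continuous fun s => w s • Fl u a s := hw.smul hF
  have hwin := window hconv hcont hsmul (N n) hn0 (hpar n hn0) hh
    (fun s => (N n).smul_mem _ (Fl_mem hu hC ha (N n) (hNc n) (hNu n) s)) hS (-(S / 2)) 1
  have low : ∀ j : Fin n, m / 4 ≤ Q (∫ s in (-(S / 2))..(-(S / 2) + S),
      Complex.exp (↑(s * (1 + (j : ℕ) * (2 * Real.pi / S))) * Complex.I) • (w s • Fl u a s)) := by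
    intro j
    set t : ℝ := 1 + (j : ℕ) * (2 * Real.pi / S) with ht
    have ht1 : 1 ≤ t := le_add_of_nonneg_right (by positivity)
    have hj : ((j : ℕ) : ℝ) < S / (2 * Real.pi * a) := Nat.lt_ceil.mp j.2
    have hat : a * t ≤ 2 := by
      rw [lt_div_iff₀ (by positivity)] at hj
      have : a * ((j : ℕ) * (2 * Real.pi / S)) ≤ 1 := by
        rw [← mul_div_assoc, ← mul_div_assoc, div_le_one hS]
        nlinarith
      rw [ht]
      nlinarith
    rw [intervalIntegral.integral_eq_integral_of_support_subset (fun s hs => by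
      by_contra h
      exact hs (by simp [hsupp s h])), Fl_fubini hu hC ha hw hwi hψw t]
    set g : ℝ → X := (Set.Ioi (0 : ℝ)).indicator
      (fun r => ((Real.exp (-a * r) : ℝ) : ℂ) • u r) with hg
    have e : ∫ r in Set.Ioi (0 : ℝ), ψ (t - r) • (((Real.exp (-a * r) : ℝ) : ℂ) • u r)
        = ∫ r, ψ (t - r) • g r := by
      rw [← integral_indicator measurableSet_Ioi]
      congr 1
      funext r
      by_cases hr : r ∈ Set.Ioi (0 : ℝ)
      · rw [hg, Set.indicator_of_mem hr, Set.indicator_of_mem hr]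
      · rw [hg, Set.indicator_of_notMem hr, Set.indicator_of_notMem hr, smul_zero]
    have hgt : g t = ((Real.exp (-a * t) : ℝ) : ℂ) • u t :=
      Set.indicator_of_mem (show t ∈ Set.Ioi (0 : ℝ) from lt_of_lt_of_le one_pos ht1) _
    have hgb : ∀ r, ‖g r‖ ≤ C := by
      intro r
      by_cases hr : r ∈ Set.Ioi (0 : ℝ)
      · have h1 : Real.exp (-a * r) ≤ 1 :=
          Real.exp_le_one_iff.mpr (by have : 0 < r := hr; nlinarith)
        rw [hg, Set.indicator_of_mem hr, norm_smul, Complex.norm_real, Real.norm_eq_abs,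
          abs_of_pos (Real.exp_pos _)]
        nlinarith [hC r, norm_nonneg (u r), Real.exp_pos (-a * r)]
      · rw [hg, Set.indicator_of_notMem hr, norm_zero]
        exact hC0
    have happ := (approx (g := g) hψ ((Continuous.stronglyMeasurable (by fun_prop)).indicator
      measurableSet_Ioi) hgb hDc hDb t
      (fun v => by rw [hgt]; exact damp_close hC hρ0 hρ ha ha1 ht1 v)).trans hψD
    rw [e]
    set G := ∫ r, ψ (t - r) • g r
    have h1 := Q_add_le hconv hsmul G (-(G - (∫ v, ψ v) • g t))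
    have h2 := hQB (-(G - (∫ v, ψ v) • g t))
    rw [norm_neg] at h2
    have h3 : B * ‖G - (∫ v, ψ v) • g t‖ ^ 2 ≤ B * ε ^ 2 := by gcongr
    have h4 : m ≤ Q (G + -(G - (∫ v, ψ v) • g t)) := by
      rw [neg_sub, add_sub_cancel, hψ1, hgt, smul_smul, hsmul, hQu t (by linarith), hm]
      have h5 : Real.exp (-2) ≤ Real.exp (-a * t) := Real.exp_le_exp.mpr (by linarith)
      have h6 : ‖(2 * Real.pi : ℂ) * ((Real.exp (-a * t) : ℝ) : ℂ)‖
          = 2 * Real.pi * Real.exp (-a * t) := by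
        rw [norm_mul, norm_mul, Complex.norm_real, Complex.norm_real, Real.norm_eq_abs,
          Real.norm_eq_abs, abs_of_pos hπ, abs_of_pos (Real.exp_pos _)]
        simp
      rw [h6]
      gcongr
    linarith
  have hsum := (Finset.sum_le_sum fun j (_ : j ∈ Finset.univ) => low j).trans hwin
  rw [Finset.sum_const, Finset.card_univ, Fintype.card_fin, nsmul_eq_mul,
    intervalIntegral.integral_eq_integral_of_support_subset (fun s hs => by
      by_contra h
      exact hs (by simp [hsupp s h]))] at hsum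
  set I : ℝ := ∫ s, ‖w s • Fl u a s‖ ^ 2 with hI
  have hnS : S / (2 * Real.pi * a) ≤ n := Nat.le_ceil _
  have hfin : m / (8 * Real.pi * K) ≤ a * I := by
    rw [div_le_iff₀ (by positivity)] at hnS ⊢
    have h1 : S * (m / 4) ≤ S * (a * I * (2 * Real.pi * K)) := by
      calc S * (m / 4) ≤ n * (2 * Real.pi * a) * (m / 4) := by gcongr
        _ = (2 * Real.pi * a) * (n * (m / 4)) := by ring
        _ ≤ (2 * Real.pi * a) * (K * S * I) := by gcongr
        _ = _ := by ring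
    have h2 := le_of_mul_le_mul_left h1 hS
    linarith
  refine (ENNReal.ofReal_le_ofReal hfin).trans ?_
  rw [ENNReal.ofReal_mul ha.le]
  gcongr
  have hint : Integrable fun s => ‖w s • Fl u a s‖ ^ 2 := by
    refine Continuous.integrable_of_hasCompactSupport (by fun_prop) ?_
    exact HasCompactSupport.intro (isCompact_Icc (a := -(S / 2)) (b := -(S / 2) + S))
      fun s hs => by simp [hsupp s fun h => hs (Set.Ioc_subset_Icc_self h)]
  rw [hI, ofReal_integral_eq_lintegral_ofReal hint (Eventually.of_forall fun s => by positivity)]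
  refine lintegral_mono fun s => ?_
  rw [ENNReal.ofReal_pow (norm_nonneg _)]
  gcongr
  rw [← ENNReal.ofReal_coe_nnreal, coe_nnnorm, norm_smul]
  exact ENNReal.ofReal_le_ofReal (mul_le_of_le_one_left (norm_nonneg _) (hw1 s))

end Pool.Agent.Lib.MP_ec63c8_an.AH
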