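import Pool.Agent.Lib.MP_ec63c8_an.AH.Semi
import Pool.Agent.Lib.MP_ec63c8_an.AH.Defs

/-! The induction along the class `Tw`. -/

set_option autoImplicit false
open Filter Topology MeasureTheory

namespace Pool.Agent.Lib.MP_ec63c8_an.AH

variable {W : Type} [NormedAddCommGroup W] [NormedSpace ℂ W]

lemma norm_mkQL (S : Submodule ℂ W) (v : W) : ‖S.mkQL v‖ = Metric.infDist v (S : Set W) :=
  QuotientAddGroup.norm_mk (S := S.toAddSubgroup) v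

lemma Euc.par {K : ℝ} {n : ℕ} (hn : n ≠ 0) {S S₀ : Submodule ℂ W} (h : Euc K n S S₀)
    (v : Fin n → W) (hv : ∀ k, v k ∈ S) :
    ∑ j : Fin n, ‖S₀.mkQL (∑ k : Fin n, om n ^ ((j : ℕ) * (k : ℕ)) • v k)‖ ^ 2
      ≤ K ^ 2 * n * ∑ k : Fin n, ‖v k‖ ^ 2 := by
  obtain ⟨m, e, he⟩ := h (Submodule.span ℂ (Set.range v))
    (Submodule.span_le.mpr (Set.range_subset_iff.mpr hv))
    (FiniteDimensional.span_of_finite ℂ (Set.finite_range v))
    (by simpa [Set.finrank] using finrank_range_le_card (R := ℂ) v)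
  let v' : Fin n → Submodule.span ℂ (Set.range v) :=
    fun k => ⟨v k, Submodule.subset_span ⟨k, rfl⟩⟩
  calc _ ≤ ∑ j : Fin n, ‖∑ k : Fin n, om n ^ ((j : ℕ) * (k : ℕ)) • e (v' k)‖ ^ 2 := by
        refine Finset.sum_le_sum fun j _ => pow_le_pow_left₀ (norm_nonneg _) ?_ 2
        have h1 := (he (∑ k : Fin n, om n ^ ((j : ℕ) * (k : ℕ)) • v' k)).1
        rw [norm_mkQL]
        simpa only [map_sum, map_smul, Submodule.coe_sum, Submodule.coe_smul] using h1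
    _ = n * ∑ k : Fin n, ‖e (v' k)‖ ^ 2 := parseval n hn _
    _ ≤ n * ∑ k : Fin n, K ^ 2 * ‖v k‖ ^ 2 := by
        refine mul_le_mul_of_nonneg_left (Finset.sum_le_sum fun k _ => ?_) (by positivity)
        rw [← mul_pow]
        exact pow_le_pow_left₀ (norm_nonneg _) (he (v' k)).2 2
    _ = _ := by rw [← Finset.mul_sum]; ring

lemma sq_add_le (a b c : ℝ) (hc : 0 ≤ c) (h : c ≤ a + b) : c ^ 2 ≤ 2 * a ^ 2 + 2 * b ^ 2 := by
  nlinarith [sq_nonneg (a - b), pow_le_pow_left₀ hc h 2]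

lemma Euc.par_pt {K : ℝ} {n : ℕ} (hn : n ≠ 0) {S S₀ : Submodule ℂ W} (h : Euc K n S S₀)
    (z : Fin n → W) {δ : ℝ} (hδ : 0 < δ) :
    ∑ j : Fin n, ‖S₀.mkQL (∑ k : Fin n, om n ^ ((j : ℕ) * (k : ℕ)) • z k)‖ ^ 2
      ≤ 4 * K ^ 2 * n * ∑ k : Fin n, ‖z k‖ ^ 2
        + (4 * K ^ 2 * n + 2 * n ^ 2) * ∑ k : Fin n, (2 * ‖S.mkQL (z k)‖ ^ 2 + 2 * δ ^ 2) := by
  choose m hm hm' using fun k => Submodule.Quotient.norm_mk_lt (S.mkQL (z k)) hδ
  have hv : ∀ k, z k - m k ∈ S := fun k => (Submodule.Quotient.eq S).mp (hm k).symm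
  have h1 := h.par hn (fun k => z k - m k) hv
  have h2 : ∀ j : Fin n, ‖S₀.mkQL (∑ k : Fin n, om n ^ ((j : ℕ) * (k : ℕ)) • z k)‖ ^ 2
      ≤ 2 * ‖S₀.mkQL (∑ k : Fin n, om n ^ ((j : ℕ) * (k : ℕ)) • (z k - m k))‖ ^ 2
        + 2 * (n * ∑ k : Fin n, ‖m k‖ ^ 2) := by
    intro j
    have h3 : ‖S₀.mkQL (∑ k : Fin n, om n ^ ((j : ℕ) * (k : ℕ)) • m k)‖ ≤ ∑ k : Fin n, ‖m k‖ := by
      refine (Submodule.Quotient.norm_mk_le S₀ _).trans ((norm_sum_le _ _).trans (le_of_eq ?_))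
      exact Finset.sum_congr rfl fun k _ => by rw [norm_smul, norm_om_pow, one_mul]
    have h4 : (∑ k : Fin n, ‖m k‖) ^ 2 ≤ n * ∑ k : Fin n, ‖m k‖ ^ 2 := by
      simpa using sq_sum_le_card_mul_sum_sq (s := Finset.univ) (f := fun k : Fin n => ‖m k‖)
    have h5 : ∑ k : Fin n, om n ^ ((j : ℕ) * (k : ℕ)) • z k
        = ∑ k : Fin n, om n ^ ((j : ℕ) * (k : ℕ)) • (z k - m k)
          + ∑ k : Fin n, om n ^ ((j : ℕ) * (k : ℕ)) • m k := by
      rw [← Finset.sum_add_distrib]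
      exact Finset.sum_congr rfl fun k _ => by rw [← smul_add, sub_add_cancel]
    rw [h5, map_add]
    refine (sq_add_le _ _ _ (norm_nonneg _)
      ((norm_add_le _ _).trans (add_le_add le_rfl h3))).trans ?_
    linarith
  have h6 : ∑ k : Fin n, ‖z k - m k‖ ^ 2
      ≤ 2 * ∑ k : Fin n, ‖z k‖ ^ 2 + 2 * ∑ k : Fin n, ‖m k‖ ^ 2 := by
    rw [Finset.mul_sum, Finset.mul_sum, ← Finset.sum_add_distrib]
    exact Finset.sum_le_sum fun k _ => sq_add_le _ _ _ (norm_nonneg _) (norm_sub_le _ _)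
  have h7 : ∑ k : Fin n, ‖m k‖ ^ 2 ≤ ∑ k : Fin n, (2 * ‖S.mkQL (z k)‖ ^ 2 + 2 * δ ^ 2) :=
    Finset.sum_le_sum fun k _ => sq_add_le _ _ _ (norm_nonneg _) (hm' k).le
  refine (Finset.sum_le_sum fun j _ => h2 j).trans ?_
  rw [Finset.sum_add_distrib, ← Finset.mul_sum, Finset.sum_const, Finset.card_univ,
    Fintype.card_fin, nsmul_eq_mul]
  have h8 := mul_le_mul_of_nonneg_left h6 (show 0 ≤ K ^ 2 * n by positivity)
  have h9 := mul_le_mul_of_nonneg_left h7 (show 0 ≤ 4 * K ^ 2 * n + 2 * (n : ℝ) ^ 2 by positivity)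
  nlinarith

variable {X : Type} [NormedAddCommGroup X] [NormedSpace ℂ X] {T : ℝ → X →L[ℂ] X} {M : ℝ}

lemma Semi.Q_par (hT : Semi T M) (J : X →L[ℂ] W) {K : ℝ} {n : ℕ} (hn : n ≠ 0)
    {S S₀ : Submodule ℂ W} (h : Euc K n S S₀) (y : Fin n → X)
    (hy : ∀ k, y k ∈ hT.null (S.mkQL.comp J)) :
    ∑ j : Fin n, Qf T (S₀.mkQL.comp J) (∑ k : Fin n, om n ^ ((j : ℕ) * (k : ℕ)) • y k)
      ≤ (4 * K ^ 2 * (‖J‖ * M) ^ 2 + 1) * n * ∑ k : Fin n, ‖y k‖ ^ 2 := by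
  set c : ℝ := 4 * K ^ 2 * n + 2 * n ^ 2 with hc
  set P : ℝ := 4 * K ^ 2 * n * ∑ k : Fin n, (‖J‖ * M) ^ 2 * ‖y k‖ ^ 2 with hP
  have hc0 : 0 ≤ c := by positivity
  have main : ∀ δ : ℝ, 0 < δ →
      ∑ j : Fin n, Qf T (S₀.mkQL.comp J) (∑ k : Fin n, om n ^ ((j : ℕ) * (k : ℕ)) • y k)
        ≤ P + c * (n * (2 * δ ^ 2)) := by
    intro δ hδ
    have b1 : ∀ k, BC fun t => 2 * ‖(S.mkQL.comp J) (orb T (y k) t)‖ ^ 2 + 2 * δ ^ 2 :=
      fun k => ((hT.bc _ (y k)).const_mul 2).add (BC.const _)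
    have e1 : Lam (fun t => P + c * ∑ k : Fin n,
        (2 * ‖(S.mkQL.comp J) (orb T (y k) t)‖ ^ 2 + 2 * δ ^ 2)) = P + c * (n * (2 * δ ^ 2)) := by
      rw [Lam_add (BC.const P) ((BC.sum _ b1).const_mul c), Lam_const,
        Lam_const_mul c (BC.sum _ b1), Lam_sum _ b1]
      have : ∀ k, Lam (fun t => 2 * ‖(S.mkQL.comp J) (orb T (y k) t)‖ ^ 2 + 2 * δ ^ 2)
          = 2 * δ ^ 2 := by
        intro k
        have h0 : Lam (fun t => ‖(S.mkQL.comp J) (orb T (y k) t)‖ ^ 2) = 0 := hy k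
        rw [Lam_add ((hT.bc _ (y k)).const_mul 2) (BC.const _), Lam_const,
          Lam_const_mul 2 (hT.bc _ (y k)), h0]
        ring
      simp only [this]
      simp
    simp only [Qf]
    rw [← e1, ← Lam_sum _ fun j => hT.bc _ _]
    refine Lam_mono (BC.sum _ fun j => hT.bc _ _)
      ((BC.const P).add ((BC.sum _ b1).const_mul c)) fun t _ => ?_
    have h1 := h.par_pt hn (fun k => J (orb T (y k) t)) hδ
    have h2 : 4 * K ^ 2 * n * ∑ k : Fin n, ‖J (orb T (y k) t)‖ ^ 2 ≤ P :=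
      mul_le_mul_of_nonneg_left (Finset.sum_le_sum fun k _ => hT.sq_le J (y k) t) (by positivity)
    refine le_trans (le_of_eq ?_) (h1.trans (add_le_add h2 le_rfl))
    simp only [orb, map_sum, map_smul, ContinuousLinearMap.comp_apply]
  have h0 : Tendsto (fun δ : ℝ => P + c * (n * (2 * δ ^ 2))) (𝓝[>] 0) (𝓝 P) := by
    have : Continuous fun δ : ℝ => P + c * (n * (2 * δ ^ 2)) := by fun_prop
    simpa using (this.tendsto 0).mono_left nhdsWithin_le_nhds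
  refine (ge_of_tendsto h0 (eventually_mem_nhdsWithin.mono main)).trans ?_
  rw [hP, ← Finset.mul_sum]
  have : 0 ≤ n * ∑ k : Fin n, ‖y k‖ ^ 2 := by positivity
  nlinarith

lemma Semi.Q_zero [CompleteSpace X] (hT : Semi T M) (J : X →L[ℂ] W) (x : X)
    (hx : liminf (fun a : ℝ => ENNReal.ofReal a *
      ∫⁻ s : ℝ, ((‖Fl (orb T x) a s‖₊ : ENNReal)) ^ 2) (𝓝[>] (0 : ℝ)) = 0)
    {S : Submodule ℂ W} (hS : Tw S) : Qf T (S.mkQL.comp J) x = 0 := by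
  induction hS with
  | top =>
    have : ∀ t, ‖((⊤ : Submodule ℂ W).mkQL.comp J) (orb T x t)‖ ^ 2 = 0 := fun t => by
      rw [Subsingleton.elim (((⊤ : Submodule ℂ W).mkQL.comp J) (orb T x t)) 0]
      simp
    simp only [Qf, this]
    exact Lam_const 0
  | step S₀ K S _ hE ih =>
    by_contra hne
    have hq := lt_of_le_of_ne (hT.Q_nonneg (S₀.mkQL.comp J) x) (Ne.symm hne)
    have hM := hT.nonneg
    have hoc := hT.orb_cont x
    obtain ⟨c, hc, hle⟩ := key (hT.Q_conv (S₀.mkQL.comp J)) (hT.Q_cont _) (hT.Q_smul _)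
      (sq_nonneg _) (hT.Q_le _) hoc (hT.orb_le x)
      (ρ := fun v => M * ‖orb T x |v| - x‖) (by fun_prop) (by simp [orb, hT.zero])
      (fun v => by positivity) (C' := M * (M * ‖x‖ + ‖x‖))
      (fun v => mul_le_mul_of_nonneg_left
        ((norm_sub_le _ _).trans (add_le_add (hT.orb_le x _) le_rfl)) hM)
      (hT.orb_sub x) hq (fun t _ => hT.Q_orb _ x t)
      (fun n => hT.null ((S n).mkQL.comp J)) (fun n => hT.null_closed _)
      (fun n t => (hT.Q_orb _ x t).trans (ih n))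
      (K := 4 * K ^ 2 * (‖J‖ * M) ^ 2 + 1) (by positivity)
      (fun n hn y hy => hT.Q_par J hn (hE n) y hy)
    have h1 : ENNReal.ofReal c ≤ 0 := by
      rw [← hx]
      refine le_liminf_of_le (by isBoundedDefault) ?_
      filter_upwards [Ioc_mem_nhdsGT one_pos] with a ha using hle a ha.1 ha.2
    exact absurd (ENNReal.ofReal_pos.mpr hc) (not_lt.mpr h1)

theorem sufficiency [CompleteSpace X] (hT : Semi T M) (J : X →L[ℂ] W) {c : ℝ} (hc : 0 < c)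
    (hJ : ∀ y, c * ‖y‖ ≤ ‖J y‖) (hW : Tw (⊥ : Submodule ℂ W)) (x : X)
    (hx : liminf (fun a : ℝ => ENNReal.ofReal a * ∫⁻ s : ℝ, ((‖∫ t in Set.Ioi (0 : ℝ),
      Complex.exp (-(((a : ℂ) + (s : ℂ) * Complex.I) * (t : ℂ))) • T t x‖₊ : ENNReal)) ^ 2)
      (𝓝[>] (0 : ℝ)) = 0) :
    Tendsto (fun t : ℝ => T t x) atTop (𝓝 0) := by
  have e : ∀ a s : ℝ, Fl (orb T x) a s = ∫ t in Set.Ioi (0 : ℝ),
      Complex.exp (-(((a : ℂ) + (s : ℂ) * Complex.I) * (t : ℂ))) • T t x := fun a s =>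
    setIntegral_congr_fun measurableSet_Ioi fun t ht => by
      simp only [orb_of_nonneg x (le_of_lt ht)]
  refine hT.stable ((⊥ : Submodule ℂ W).mkQL.comp J) hc (fun y => (hJ y).trans (le_of_eq ?_))
    (hT.Q_zero J x (by simpa only [e] using hx) hW)
  rw [ContinuousLinearMap.comp_apply, norm_mkQL]
  simp

end Pool.Agent.Lib.MP_ec63c8_an.AH
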