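import Mathlib

/-! An invariant mean on bounded continuous functions (ultrafilter limit of Cesàro means). -/

set_option autoImplicit false
open Filter Topology MeasureTheory

namespace Pool.Agent.Lib.MP_ec63c8_an.AH

/-- bounded and continuous -/
def BC (f : ℝ → ℝ) : Prop := Continuous f ∧ ∃ C : ℝ, ∀ t, |f t| ≤ C

lemma BC.const (c : ℝ) : BC (fun _ => c) := ⟨continuous_const, |c|, fun _ => le_rfl⟩

lemma BC.add {f g : ℝ → ℝ} (hf : BC f) (hg : BC g) : BC (fun t => f t + g t) := by
  obtain ⟨h1, C, hC⟩ := hf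
  obtain ⟨h2, D, hD⟩ := hg
  exact ⟨h1.add h2, C + D, fun t => (abs_add_le _ _).trans (add_le_add (hC t) (hD t))⟩

lemma BC.const_mul {f : ℝ → ℝ} (c : ℝ) (hf : BC f) : BC (fun t => c * f t) := by
  obtain ⟨h1, C, hC⟩ := hf
  refine ⟨continuous_const.mul h1, |c| * C, fun t => ?_⟩
  rw [abs_mul]
  exact mul_le_mul_of_nonneg_left (hC t) (abs_nonneg _)

lemma BC.sum {ι : Type} (s : Finset ι) {f : ι → ℝ → ℝ} (hf : ∀ i, BC (f i)) :
    BC (fun t => ∑ i ∈ s, f i t) := by
  classical
  induction s using Finset.induction_on with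
  | empty => simpa using BC.const 0
  | insert a s ha ih =>
    simp only [Finset.sum_insert ha]
    exact (hf a).add ih

lemma BC.shift {f : ℝ → ℝ} (hf : BC f) (s : ℝ) : BC (fun t => f (t + s)) := by
  obtain ⟨h1, C, hC⟩ := hf
  exact ⟨h1.comp (continuous_id.add continuous_const), C, fun t => hC _⟩

/-- Cesàro mean over `[0, n+1]` -/
noncomputable def avg (f : ℝ → ℝ) (n : ℕ) : ℝ := ((n : ℝ) + 1)⁻¹ * ∫ t in (0 : ℝ)..((n : ℝ) + 1), f t

/-- the invariant mean -/
noncomputable def Lam (f : ℝ → ℝ) : ℝ := limUnder (hyperfilter ℕ : Filter ℕ) (avg f)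

lemma abs_int_le {f : ℝ → ℝ} {C : ℝ} (hC : ∀ t, |f t| ≤ C) (a b : ℝ) :
    |∫ t in a..b, f t| ≤ C * |b - a| := by
  have := intervalIntegral.norm_integral_le_of_norm_le_const (a := a) (b := b) (f := f) (C := C)
    (fun x _ => by simpa using hC x)
  simpa using this

lemma tendsto_Lam {f : ℝ → ℝ} (hf : BC f) :
    Tendsto (avg f) (hyperfilter ℕ : Filter ℕ) (𝓝 (Lam f)) := by
  obtain ⟨-, C, hC⟩ := hf
  apply tendsto_nhds_limUnder
  have hb : ∀ n, avg f n ∈ Set.Icc (-C) C := by
    intro n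
    have hn : (0 : ℝ) < (n : ℝ) + 1 := by positivity
    have h := abs_int_le hC 0 ((n : ℝ) + 1)
    rw [sub_zero, abs_of_pos hn] at h
    rw [Set.mem_Icc, ← abs_le, avg, abs_mul, abs_of_pos (inv_pos.mpr hn), inv_mul_le_iff₀ hn]
    linarith
  obtain ⟨x, -, hx⟩ := isCompact_Icc.ultrafilter_le_nhds ((hyperfilter ℕ).map (avg f))
    (by
      rw [le_principal_iff]
      exact Filter.mem_map.mpr (Filter.univ_mem' hb))
  exact ⟨x, hx⟩

lemma Lam_eq {f : ℝ → ℝ} (hf : BC f) {c : ℝ}
    (h : Tendsto (avg f) (hyperfilter ℕ : Filter ℕ) (𝓝 c)) : Lam f = c :=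
  tendsto_nhds_unique (tendsto_Lam hf) h

lemma Lam_const (c : ℝ) : Lam (fun _ => c) = c := by
  apply Lam_eq (BC.const c)
  have : avg (fun _ => c) = fun _ => c := by
    funext n
    have hn : (0 : ℝ) < (n : ℝ) + 1 := by positivity
    simp only [avg, intervalIntegral.integral_const, sub_zero, smul_eq_mul]
    field_simp
  rw [this]
  exact tendsto_const_nhds

lemma Lam_add {f g : ℝ → ℝ} (hf : BC f) (hg : BC g) :
    Lam (fun t => f t + g t) = Lam f + Lam g := by
  apply Lam_eq (hf.add hg)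
  have : avg (fun t => f t + g t) = fun n => avg f n + avg g n := by
    funext n
    simp only [avg]
    rw [intervalIntegral.integral_add (hf.1.intervalIntegrable _ _) (hg.1.intervalIntegrable _ _)]
    ring
  rw [this]
  exact (tendsto_Lam hf).add (tendsto_Lam hg)

lemma Lam_const_mul (c : ℝ) {f : ℝ → ℝ} (hf : BC f) :
    Lam (fun t => c * f t) = c * Lam f := by
  apply Lam_eq (hf.const_mul c)
  have : avg (fun t => c * f t) = fun n => c * avg f n := by
    funext n
    simp only [avg]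
    rw [intervalIntegral.integral_const_mul]
    ring
  rw [this]
  exact (tendsto_Lam hf).const_mul c

lemma Lam_sum {ι : Type} (s : Finset ι) {f : ι → ℝ → ℝ} (hf : ∀ i, BC (f i)) :
    Lam (fun t => ∑ i ∈ s, f i t) = ∑ i ∈ s, Lam (f i) := by
  classical
  induction s using Finset.induction_on with
  | empty => simpa using Lam_const 0
  | insert a s ha ih =>
    simp only [Finset.sum_insert ha]
    rw [Lam_add (hf a) (BC.sum s hf), ih]

lemma Lam_mono {f g : ℝ → ℝ} (hf : BC f) (hg : BC g) (h : ∀ t, 0 ≤ t → f t ≤ g t) :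
    Lam f ≤ Lam g := by
  refine le_of_tendsto_of_tendsto' (tendsto_Lam hf) (tendsto_Lam hg) fun n => ?_
  have hn : (0 : ℝ) < (n : ℝ) + 1 := by positivity
  refine mul_le_mul_of_nonneg_left ?_ (inv_pos.mpr hn).le
  exact intervalIntegral.integral_mono_on hn.le (hf.1.intervalIntegrable _ _)
    (hg.1.intervalIntegrable _ _) fun t ht => h t ht.1

lemma Lam_congr {f g : ℝ → ℝ} (hf : BC f) (hg : BC g) (h : ∀ t, 0 ≤ t → f t = g t) :
    Lam f = Lam g :=
  le_antisymm (Lam_mono hf hg fun t ht => (h t ht).le) (Lam_mono hg hf fun t ht => (h t ht).ge)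

lemma Lam_shift {f : ℝ → ℝ} (hf : BC f) (s : ℝ) : Lam (fun t => f (t + s)) = Lam f := by
  apply Lam_eq (hf.shift s)
  obtain ⟨C, hC⟩ := hf.2
  have hd : Tendsto (fun n => avg (fun t => f (t + s)) n - avg f n) atTop (𝓝 0) := by
    have h0 : Tendsto (fun n : ℕ => (2 * (C * |s|)) * (1 / ((n : ℝ) + 1))) atTop (𝓝 0) := by
      simpa using tendsto_one_div_add_atTop_nhds_zero_nat.const_mul (2 * (C * |s|))
    refine squeeze_zero_norm (fun n => ?_) h0
    have hn : (0 : ℝ) < (n : ℝ) + 1 := by positivity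
    set L : ℝ := (n : ℝ) + 1 with hL
    have e1 : ∫ t in (0 : ℝ)..L, f (t + s) = ∫ t in s..(L + s), f t := by
      rw [intervalIntegral.integral_comp_add_right, zero_add]
    have i1 := intervalIntegral.integral_add_adjacent_intervals
      (hf.1.intervalIntegrable (μ := volume) 0 s) (hf.1.intervalIntegrable s (L + s))
    have i2 := intervalIntegral.integral_add_adjacent_intervals
      (hf.1.intervalIntegrable (μ := volume) 0 L) (hf.1.intervalIntegrable L (L + s))
    have b1 := abs_int_le hC 0 s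
    have b2 := abs_int_le hC L (L + s)
    rw [sub_zero] at b1
    rw [add_sub_cancel_left] at b2
    have e2 : avg (fun t => f (t + s)) n - avg f n
        = L⁻¹ * ((∫ t in L..(L + s), f t) - ∫ t in (0 : ℝ)..s, f t) := by
      simp only [avg]
      rw [← hL, e1, ← mul_sub]
      congr 1
      linarith
    rw [e2, Real.norm_eq_abs, abs_mul, abs_of_pos (inv_pos.mpr hn), one_div, mul_comm]
    refine mul_le_mul_of_nonneg_right ?_ (inv_pos.mpr hn).le
    have := abs_sub (∫ t in L..(L + s), f t) (∫ t in (0 : ℝ)..s, f t)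
    linarith
  have := (hd.mono_left Nat.hyperfilter_le_atTop).add (tendsto_Lam hf)
  simpa using this

end Pool.Agent.Lib.MP_ec63c8_an.AH
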