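import Pool.Agent.Lib.MP_ec63c8_an.AH.Key
import Pool.Agent.Lib.MP_ec63c8_an.AH.Mean

/-! The invariant quadratic functional attached to a bounded semigroup. -/

set_option autoImplicit false
open Filter Topology MeasureTheory

namespace Pool.Agent.Lib.MP_ec63c8_an.AH

variable {X : Type} [NormedAddCommGroup X] [NormedSpace ℂ X]

/-- a bounded strongly continuous semigroup -/
structure Semi (T : ℝ → X →L[ℂ] X) (M : ℝ) : Prop where
  zero : T 0 = 1
  add : ∀ s t : ℝ, 0 ≤ s → 0 ≤ t → T (s + t) = T s * T t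
  cont : ∀ x : X, ContinuousOn (fun t : ℝ => T t x) (Set.Ici (0 : ℝ))
  bdd : ∀ t : ℝ, 0 ≤ t → ‖T t‖ ≤ M

/-- the orbit, extended to negative times -/
noncomputable def orb (T : ℝ → X →L[ℂ] X) (y : X) (t : ℝ) : X := T (max t 0) y

variable {T : ℝ → X →L[ℂ] X} {M : ℝ}

lemma Semi.nonneg (h : Semi T M) : 0 ≤ M := (norm_nonneg _).trans (h.bdd 0 le_rfl)

lemma Semi.orb_cont (h : Semi T M) (y : X) : Continuous (orb T y) :=
  (h.cont y).comp_continuous (f := fun t : ℝ => max t 0) (by fun_prop)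
    fun t => le_max_right t 0

lemma Semi.orb_le (h : Semi T M) (y : X) (t : ℝ) : ‖orb T y t‖ ≤ M * ‖y‖ :=
  (T _).le_of_opNorm_le (h.bdd _ (le_max_right _ _)) y

lemma orb_of_nonneg (y : X) {t : ℝ} (ht : 0 ≤ t) : orb T y t = T t y := by
  rw [orb, max_eq_left ht]

lemma Semi.orb_sub (h : Semi T M) (x : X) (r t : ℝ) (hr : 0 ≤ r) (ht : 0 ≤ t) :
    ‖orb T x r - orb T x t‖ ≤ M * ‖orb T x |t - r| - x‖ := by
  have aux : ∀ r t : ℝ, 0 ≤ r → r ≤ t →
      ‖orb T x r - orb T x t‖ ≤ M * ‖orb T x |t - r| - x‖ := by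
    intro r t hr hrt
    have h1 : 0 ≤ t - r := by linarith
    have h2 : T t x = T r (T (t - r) x) := by
      have := h.add r (t - r) hr h1
      rw [add_sub_cancel] at this
      rw [this]; rfl
    rw [abs_of_nonneg h1, orb_of_nonneg x hr, orb_of_nonneg x (hr.trans hrt), orb_of_nonneg x h1,
      h2, ← map_sub, ← norm_neg (T (t - r) x - x), neg_sub]
    exact (T r).le_of_opNorm_le (h.bdd r hr) _
  rcases le_total r t with h1 | h1
  · exact aux r t hr h1
  · rw [norm_sub_rev, abs_sub_comm]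
    exact aux t r ht h1

variable {V : Type} [SeminormedAddCommGroup V] [NormedSpace ℂ V]

/-- the mean of `‖A T(t) y‖²` -/
noncomputable def Qf (T : ℝ → X →L[ℂ] X) (A : X →L[ℂ] V) (y : X) : ℝ :=
  Lam fun t => ‖A (orb T y t)‖ ^ 2

lemma Semi.A_le (h : Semi T M) (A : X →L[ℂ] V) (y : X) (t : ℝ) :
    ‖A (orb T y t)‖ ≤ ‖A‖ * M * ‖y‖ := by
  rw [mul_assoc]
  exact (A.le_opNorm _).trans (mul_le_mul_of_nonneg_left (h.orb_le y t) (norm_nonneg _))

lemma Semi.sq_le (h : Semi T M) (A : X →L[ℂ] V) (y : X) (t : ℝ) :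
    ‖A (orb T y t)‖ ^ 2 ≤ (‖A‖ * M) ^ 2 * ‖y‖ ^ 2 := by
  rw [← mul_pow]
  exact pow_le_pow_left₀ (norm_nonneg _) (h.A_le A y t) 2

lemma Semi.bc (h : Semi T M) (A : X →L[ℂ] V) (y : X) : BC fun t => ‖A (orb T y t)‖ ^ 2 :=
  ⟨(A.continuous.comp (h.orb_cont y)).norm.pow 2, _, fun t => by
    rw [abs_of_nonneg (sq_nonneg _)]; exact h.sq_le A y t⟩

lemma Semi.Q_nonneg (h : Semi T M) (A : X →L[ℂ] V) (y : X) : 0 ≤ Qf T A y := by
  rw [← Lam_const 0]
  exact Lam_mono (BC.const 0) (h.bc A y) fun t _ => sq_nonneg _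

lemma Semi.Q_le (h : Semi T M) (A : X →L[ℂ] V) (y : X) :
    Qf T A y ≤ (‖A‖ * M) ^ 2 * ‖y‖ ^ 2 := by
  rw [← Lam_const ((‖A‖ * M) ^ 2 * ‖y‖ ^ 2)]
  exact Lam_mono (h.bc A y) (BC.const _) fun t _ => h.sq_le A y t

lemma Semi.Q_smul (h : Semi T M) (A : X →L[ℂ] V) (c : ℂ) (y : X) :
    Qf T A (c • y) = ‖c‖ ^ 2 * Qf T A y := by
  rw [Qf, Qf, ← Lam_const_mul _ (h.bc A y)]
  simp only [orb, map_smul, norm_smul, mul_pow]

lemma Semi.Q_conv (h : Semi T M) (A : X →L[ℂ] V) : ConvexOn ℝ Set.univ (Qf T A) := by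
  refine ⟨convex_univ, fun y _ z _ a b ha hb hab => ?_⟩
  rw [smul_eq_mul, smul_eq_mul, Qf, Qf, Qf, ← Lam_const_mul _ (h.bc A y),
    ← Lam_const_mul _ (h.bc A z), ← Lam_add ((h.bc A y).const_mul a) ((h.bc A z).const_mul b)]
  refine Lam_mono (h.bc A _) (((h.bc A y).const_mul a).add ((h.bc A z).const_mul b)) fun t _ => ?_
  have h1 : ‖A (orb T (a • y + b • z) t)‖ ≤ a * ‖A (orb T y t)‖ + b * ‖A (orb T z t)‖ := by
    simp only [orb, map_add, ← Complex.coe_smul, map_smul]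
    refine (norm_add_le _ _).trans (le_of_eq ?_)
    rw [norm_smul, norm_smul, Complex.norm_real, Complex.norm_real, Real.norm_eq_abs,
      Real.norm_eq_abs, abs_of_nonneg ha, abs_of_nonneg hb]
  refine (pow_le_pow_left₀ (norm_nonneg _) h1 2).trans ?_
  obtain rfl : b = 1 - a := by linarith
  nlinarith [mul_nonneg (mul_nonneg ha hb) (sq_nonneg (‖A (orb T y t)‖ - ‖A (orb T z t)‖))]

lemma Semi.Q_cont (h : Semi T M) (A : X →L[ℂ] V) : Continuous (Qf T A) := by
  have hle : ∀ y z, Qf T A y ≤ Qf T A z + (‖A‖ * M) ^ 2 * (‖y - z‖ * (‖y‖ + ‖z‖)) := by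
    intro y z
    rw [Qf, Qf, ← Lam_const ((‖A‖ * M) ^ 2 * (‖y - z‖ * (‖y‖ + ‖z‖))),
      ← Lam_add (h.bc A z) (BC.const _)]
    refine Lam_mono (h.bc A _) ((h.bc A z).add (BC.const _)) fun t _ => ?_
    have h1 := h.A_le A y t
    have h2 := h.A_le A z t
    have h3 := h.A_le A (y - z) t
    have h4 : ‖A (orb T y t)‖ - ‖A (orb T z t)‖ ≤ ‖A (orb T (y - z) t)‖ := by
      simp only [orb, map_sub]
      exact norm_sub_norm_le _ _
    have h5 := mul_le_mul (h4.trans h3) (add_le_add h1 h2) (by positivity)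
      ((norm_nonneg _).trans h3)
    nlinarith
  rw [continuous_iff_continuousAt]
  intro z
  have hc : Continuous fun y : X => (‖A‖ * M) ^ 2 * (‖y - z‖ * (‖y‖ + ‖z‖)) := by fun_prop
  have h0 := hc.tendsto z
  simp only [sub_self, norm_zero, zero_mul, mul_zero] at h0
  rw [ContinuousAt, tendsto_iff_norm_sub_tendsto_zero]
  refine squeeze_zero (fun _ => norm_nonneg _) (fun y => ?_) h0
  have h1 := hle y z
  have h2 := hle z y
  rw [norm_sub_rev z, add_comm ‖z‖] at h2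
  rw [Real.norm_eq_abs, abs_le]
  constructor <;> linarith

lemma Semi.Q_orb (h : Semi T M) (A : X →L[ℂ] V) (y : X) (s : ℝ) :
    Qf T A (orb T y s) = Qf T A y := by
  rw [Qf, Qf, ← Lam_shift (h.bc A y) (max s 0)]
  refine Lam_congr (h.bc A _) ((h.bc A y).shift _) fun t ht => ?_
  rw [orb_of_nonneg _ ht, orb_of_nonneg y (add_nonneg ht (le_max_right s 0)),
    h.add t _ ht (le_max_right s 0)]
  rfl

/-- the null space of `Qf` -/
def Semi.null (h : Semi T M) (A : X →L[ℂ] V) : Submodule ℂ X where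
  carrier := {y | Qf T A y = 0}
  zero_mem' := by
    have := h.Q_smul A 0 0
    simpa using this
  add_mem' := by
    intro y z hy hz
    have h1 := Q_add_le (h.Q_conv A) (h.Q_smul A) y z
    simp only [Set.mem_ofPred_eq] at hy hz ⊢
    exact le_antisymm (by linarith) (h.Q_nonneg A _)
  smul_mem' := by
    intro c y hy
    simp only [Set.mem_ofPred_eq] at hy ⊢
    rw [h.Q_smul, hy, mul_zero]

lemma Semi.null_closed (h : Semi T M) (A : X →L[ℂ] V) : IsClosed (h.null A : Set X) :=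
  isClosed_eq (h.Q_cont A) continuous_const

lemma Semi.stable (h : Semi T M) (A : X →L[ℂ] V) {c : ℝ} (hc : 0 < c)
    (hA : ∀ y, c * ‖y‖ ≤ ‖A y‖) {x : X} (hx : Qf T A x = 0) :
    Tendsto (fun t : ℝ => T t x) atTop (𝓝 0) := by
  rw [NormedAddGroup.tendsto_nhds_zero]
  intro ε hε
  have hM := h.nonneg
  obtain ⟨t, ht, h1⟩ : ∃ t, 0 ≤ t ∧ ‖T t x‖ < ε / (M + 1) := by
    by_contra hcon
    push Not at hcon
    have h2 := Lam_mono (BC.const ((c * (ε / (M + 1))) ^ 2)) (h.bc A x) fun t ht => by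
      refine pow_le_pow_left₀ (by positivity) (le_trans ?_ (hA _)) 2
      rw [orb_of_nonneg x ht]
      exact mul_le_mul_of_nonneg_left (hcon t ht) hc.le
    rw [Lam_const] at h2
    have h3 : 0 < (c * (ε / (M + 1))) ^ 2 := by positivity
    exact absurd (h3.trans_le h2) (by rw [← Qf, hx]; exact lt_irrefl _)
  filter_upwards [eventually_ge_atTop t] with s hs
  have h2 : T s x = T (s - t) (T t x) := by
    have := h.add (s - t) t (by linarith) ht
    rw [sub_add_cancel] at this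
    rw [this]; rfl
  have h3 := (T (s - t)).le_of_opNorm_le (h.bdd _ (by linarith)) (T t x)
  rw [lt_div_iff₀ (by positivity)] at h1
  rw [h2]
  nlinarith [norm_nonneg (T t x)]

end Pool.Agent.Lib.MP_ec63c8_an.AH
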