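import Pool.Agent.Lib.MP_ec63c8_an.AH.DFT

/-! The window inequality: Jensen plus the discrete Fourier transform. -/

set_option autoImplicit false
open Filter Topology MeasureTheory

namespace Pool.Agent.Lib.MP_ec63c8_an.AH

lemma split_int {E : Type} [NormedAddCommGroup E] [NormedSpace ℝ E] {g : ℝ → E}
    (hg : Continuous g) (b Δ : ℝ) (n : ℕ) :
    ∫ s in b..(b + n * Δ), g s = ∫ σ in b..(b + Δ), ∑ k : Fin n, g (σ + (k : ℕ) * Δ) := by
  have h := intervalIntegral.sum_integral_adjacent_intervals (f := g) (μ := volume)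
    (a := fun k : ℕ => b + k * Δ) (n := n) (fun k _ => hg.intervalIntegrable _ _)
  simp only [Nat.cast_zero, zero_mul, add_zero] at h
  rw [← h, intervalIntegral.integral_finsetSum (f := fun (k : Fin n) σ => g (σ + (k : ℕ) * Δ))
    (fun k _ => (hg.comp (continuous_id.add continuous_const)).intervalIntegrable _ _),
    Finset.sum_range]
  refine Finset.sum_congr rfl fun k _ => ?_
  rw [intervalIntegral.integral_comp_add_right]
  congr 1
  push_cast
  ring

variable {X : Type} [NormedAddCommGroup X] [NormedSpace ℂ X] [CompleteSpace X]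

lemma jensen {Q : X → ℝ} (hconv : ConvexOn ℝ Set.univ Q) (hcont : Continuous Q)
    (hsmul : ∀ (c : ℂ) y, Q (c • y) = ‖c‖ ^ 2 * Q y) {f : ℝ → X} (hf : Continuous f)
    (b : ℝ) {Δ : ℝ} (hΔ : 0 < Δ) :
    Q (∫ σ in b..(b + Δ), f σ) ≤ Δ * ∫ σ in b..(b + Δ), Q (f σ) := by
  have hle : b ≤ b + Δ := by linarith
  have h := hconv.map_set_average_le (μ := volume) (t := Set.Ioc b (b + Δ)) (f := f)
    hcont.continuousOn isClosed_univ (by simp [hΔ]) (by simp)
    (Eventually.of_forall fun _ => Set.mem_univ _)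
    (hf.integrableOn_Icc.mono_set Set.Ioc_subset_Icc_self)
    ((hcont.comp hf).integrableOn_Icc.mono_set Set.Ioc_subset_Icc_self)
  rw [setAverage_eq, setAverage_eq, Real.volume_real_Ioc_of_le hle, add_sub_cancel_left,
    ← intervalIntegral.integral_of_le hle, ← intervalIntegral.integral_of_le hle,
    ← Complex.coe_smul, hsmul, Complex.norm_real, Real.norm_eq_abs, sq_abs, smul_eq_mul] at h
  have h2 := mul_le_mul_of_nonneg_left h (sq_nonneg Δ)
  have e1 : ∀ z : ℝ, Δ ^ 2 * (Δ⁻¹ ^ 2 * z) = z := fun z => by field_simp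
  have e2 : ∀ z : ℝ, Δ ^ 2 * (Δ⁻¹ * z) = Δ * z := fun z => by field_simp
  rwa [e1, e2] at h2

lemma window {Q : X → ℝ} (hconv : ConvexOn ℝ Set.univ Q) (hcont : Continuous Q)
    (hsmul : ∀ (c : ℂ) y, Q (c • y) = ‖c‖ ^ 2 * Q y) (N : Submodule ℂ X) {n : ℕ} (hn : n ≠ 0)
    {K : ℝ} (hpar : ∀ y : Fin n → X, (∀ k, y k ∈ N) →
      ∑ j : Fin n, Q (∑ k : Fin n, om n ^ ((j : ℕ) * (k : ℕ)) • y k)
        ≤ K * n * ∑ k : Fin n, ‖y k‖ ^ 2)
    {h : ℝ → X} (hc : Continuous h) (hN : ∀ s, h s ∈ N) {S : ℝ} (hS : 0 < S) (b t₀ : ℝ) :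
    ∑ j : Fin n, Q (∫ s in b..(b + S),
        Complex.exp (↑(s * (t₀ + (j : ℕ) * (2 * Real.pi / S))) * Complex.I) • h s)
      ≤ K * S * ∫ s in b..(b + S), ‖h s‖ ^ 2 := by
  have hn0 : (0 : ℝ) < n := by exact_mod_cast Nat.pos_of_ne_zero hn
  set Δ : ℝ := S / n with hΔ
  have hΔ0 : 0 < Δ := by positivity
  have hSΔ : S = n * Δ := by rw [hΔ]; field_simp
  let y : ℝ → Fin n → X := fun σ k =>
    Complex.exp (↑((k : ℕ) * Δ * t₀) * Complex.I) • h (σ + (k : ℕ) * Δ)
  let z : Fin n → ℝ → X := fun j σ => ∑ k : Fin n, om n ^ ((j : ℕ) * (k : ℕ)) • y σ k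
  have hz : ∀ j, Continuous (z j) := fun j => by
    simp only [z, y]
    fun_prop
  have step : ∀ j : Fin n, Q (∫ s in b..(b + S),
        Complex.exp (↑(s * (t₀ + (j : ℕ) * (2 * Real.pi / S))) * Complex.I) • h s)
      ≤ Δ * ∫ σ in b..(b + Δ), Q (z j σ) := by
    intro j
    have e := split_int (g := fun s : ℝ =>
      Complex.exp (↑(s * (t₀ + (j : ℕ) * (2 * Real.pi / S))) * Complex.I) • h s)
      (by fun_prop) b Δ n
    rw [← hSΔ] at e
    rw [e]
    refine (jensen hconv hcont hsmul (by fun_prop) b hΔ0).trans (le_of_eq ?_)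
    congr 2
    funext σ
    have e2 : ∑ k : Fin n, Complex.exp (↑((σ + (k : ℕ) * Δ) *
          (t₀ + (j : ℕ) * (2 * Real.pi / S))) * Complex.I) • h (σ + (k : ℕ) * Δ)
        = Complex.exp (↑(σ * (t₀ + (j : ℕ) * (2 * Real.pi / S))) * Complex.I) • z j σ := by
      simp only [z, y, Finset.smul_sum, smul_smul]
      refine Finset.sum_congr rfl fun k _ => ?_
      congr 1
      rw [om, ← Complex.exp_nat_mul, ← Complex.exp_add, ← Complex.exp_add]
      congr 1
      have h1 : (n : ℂ) ≠ 0 := by exact_mod_cast hn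
      have h2 : (S : ℂ) ≠ 0 := by exact_mod_cast hS.ne'
      rw [hΔ]
      push_cast
      field_simp
      ring
    rw [e2, hsmul, Complex.norm_exp_ofReal_mul_I]
    simp
  refine (Finset.sum_le_sum fun j _ => step j).trans ?_
  rw [← Finset.mul_sum, ← intervalIntegral.integral_finsetSum (f := fun j σ => Q (z j σ))
    (fun j _ => (hcont.comp (hz j)).intervalIntegrable _ _)]
  have e := split_int (g := fun s : ℝ => ‖h s‖ ^ 2) (by fun_prop) b Δ n
  rw [← hSΔ] at e
  rw [e, show K * S = Δ * (K * n) by rw [hSΔ]; ring, mul_assoc]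
  refine mul_le_mul_of_nonneg_left ?_ hΔ0.le
  rw [← intervalIntegral.integral_const_mul]
  refine intervalIntegral.integral_mono_on (by linarith)
    ((continuous_finsetSum _ fun j _ => hcont.comp (hz j)).intervalIntegrable _ _)
    (Continuous.intervalIntegrable (by fun_prop) _ _) fun σ _ => ?_
  refine (hpar (y σ) fun k => N.smul_mem _ (hN _)).trans (le_of_eq ?_)
  congr 1
  refine Finset.sum_congr rfl fun k _ => ?_
  simp only [y]
  rw [norm_smul, Complex.norm_exp_ofReal_mul_I, one_mul]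

end Pool.Agent.Lib.MP_ec63c8_an.AH
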